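import Pool.Agent.H98.RFT.Targets2
import Pool.Agent.H80.RFZ.STEP
import Pool.Agent.H94.RFT.AA
import Pool.Agent.H50.RFT.CNT

/-!
# rft_modules row STEP (helper79): one step of the induction over hard scales
-/

set_option autoImplicit false

open MeasureTheory ProbabilityTheory

namespace Pool.Agent.H79.RFT.STEP

open Pool.Agent.H98.RFC Pool.Agent.H98.RFZ

open Pool.Agent.H80.RFZ (st1 st2 st3 st4 st5 st6 st7 st8 st9 st10 st11 nq_F nq_S nq_E)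
open Pool.Agent.H98.RFT (pBT HardT BadT PA T_B3 T_A T_BM)

theorem pBT_mono {R : ℕ} {J : Site → ℝ} (hJ : IsCoupling R J) {T : ℝ} (hT : 0 < T) (ε : ℝ)
    {N N' : Site → ℝ} (h : ∀ x, N x ≤ N' x) (v : ℕ) :
    pBT R J T ε N v ≤ pBT R J T ε N' v := by
  refine Pool.Agent.H94.RFT.PA_mono Pool.Agent.H98.RFT.pf_QPR Pool.Agent.H50.RFT.pf_CNT hJ ε hT
    _ ?_
  rintro D ω ⟨k, x, h1, h4, h5, h6, h7⟩
  exact ⟨k, x, h1, h4, h5, h6, lt_of_lt_of_le h7 (h _)⟩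

theorem pf_STEP (hB3 : T_B3) (hPAR : B_PAR) (hA : T_A) (hNQ : B_NQ) (_hBM : T_BM) :
    Pool.Agent.H98.RFT.T_STEP := by
  intro R J hJ T ε hT p α β G φ δ M K' hp hα hαβ hG hφ hφ1 hδ hδ1 hfl hM hM10 hK2
  obtain ⟨κ, A', n, hκ, hκ2, hA8, hκA, hnA, hprob⟩ := hPAR α β δ G M K' hα hαβ hδ hδ1 hG
  refine ⟨κ, hκ, hκ2, fun a b ha1 ha2 hb1 hb2 hpB hHard => ?_⟩
  have hG0 : 0 < G := lt_of_lt_of_le one_pos hG
  have hβ : 0 < β := lt_of_lt_of_le hα hαβ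
  have ha0 : 0 < a := lt_of_lt_of_le (by positivity) ha1
  have hb0 : 0 < b := lt_of_lt_of_le (by positivity) hb1
  obtain ⟨ρ, hρ⟩ : ∃ ρ : ℝ, ρ = κ / G := ⟨_, rfl⟩
  obtain ⟨θ, hθ⟩ : ∃ θ : ℝ, θ = κ / (8 * G) := ⟨_, rfl⟩
  rw [← hρ]
  rw [← hθ] at hprob
  have hρθ : ρ = 8 * θ := by rw [hρ, hθ]; field_simp
  have hρ0 : 0 < ρ := by rw [hρ]; exact div_pos hκ hG0
  have hθ0 : 0 < θ := by linarith
  have hρκ : ρ ≤ κ := by rw [hρ]; exact div_le_self hκ.le hG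
  have hρG : ρ * G = κ := by rw [hρ]; field_simp
  have hA'0 : (8 : ℝ) ≤ A' := by exact_mod_cast hA8
  have hβα : 1 ≤ β / α := by rw [le_div_iff₀ hα]; linarith
  have hβα0 : 0 < β / α := by positivity
  obtain ⟨A, hAl⟩ := exists_nat_ge (β / α / θ + 8)
  have hA0 : (8 : ℝ) ≤ A := by
    have : 0 < β / α / θ := by positivity
    linarith
  have hA8' : 8 ≤ A := by exact_mod_cast hA0
  have hAθ : β / α ≤ A * A' * θ := by
    have h1 : β / α / θ ≤ A := by linarith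
    rw [div_le_iff₀ hθ0] at h1
    have h2 : (A : ℝ) * θ * 1 ≤ A * θ * A' := by
      apply mul_le_mul_of_nonneg_left (by linarith) (by positivity)
    linarith
  have hAκ : β / α ≤ A * A' * κ := by
    have h2 : (A : ℝ) * A' * θ ≤ A * A' * κ :=
      mul_le_mul_of_nonneg_left (by linarith) (by positivity)
    linarith
  obtain ⟨w₀, hw₀⟩ := hpB
  obtain ⟨τ, hτ⟩ : ∃ τ : ℝ, τ = 1 / 2 * (θ / (10 ^ 6 * (β / α))) ^ 4 := ⟨_, rfl⟩
  rw [← hτ] at hprob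
  have hτ0 : 0 < τ := by rw [hτ]; positivity
  obtain ⟨v₀, hv₀⟩ := exists_nat_ge ((40 * (A : ℝ) * A') ^ 2 / τ)
  obtain ⟨u, hu, hHu⟩ := hHard (A * (w₀ + (200 * R + 200) + v₀))
  obtain ⟨v, hv⟩ : ∃ v : ℕ, v = u / A := ⟨_, rfl⟩
  have hApos : 0 < A := by omega
  have hv1 : w₀ + (200 * R + 200) + v₀ ≤ v := by
    rw [hv, Nat.le_div_iff_mul_le hApos, Nat.mul_comm]
    exact hu
  have hAv : A * v ≤ u := by rw [hv]; exact Nat.mul_div_le u A
  have hAv2 : u ≤ 2 * A * v := st11 hApos hv (by omega)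
  have hu200 : 200 * R + 200 ≤ v := by omega
  -- the two comparisons
  have hF := nq_F p hα ha0 hb0 ha1 hb2 hG0 hφ hfl hθ0 hρθ hρG (by linarith)
  have hS := nq_S p ha0 hb0 hρ0.le hκ.le
  have hb3 := hB3 R J hJ T ε hT p a b (a * (1 - ρ)) (b * (1 + κ)) α β θ κ φ δ A A' M K' n u v hp hα
    hαβ ha1 ha2 hb1 hb2 (mul_nonneg ha0.le (by linarith)) (mul_nonneg hb0.le (by linarith)) hθ0
    (by linarith) hκ (by linarith) hφ hφ1 hδ hδ1 hF hS hA8' hAθ hAκ hκA hM hM10 hK2 hnA hAv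
    hAv2 hu200 hHu
  have hpv : pBT R J T ε (Nq p a b) v ≤ ((v : ℝ) ^ 20)⁻¹ := hw₀ v (by omega)
  have hv0 : (1 : ℝ) ≤ v := by
    have : 1 ≤ v := by omega
    exact_mod_cast this
  have hvv : (v₀ : ℝ) ≤ v := by
    have : v₀ ≤ v := by omega
    exact_mod_cast this
  have hmain : (40 * (A : ℝ) * A') ^ 2 * pBT R J T ε (Nq p a b) v ≤ τ := by
    have h1 : (40 * (A : ℝ) * A') ^ 2 * pBT R J T ε (Nq p a b) v ≤
        (40 * (A : ℝ) * A') ^ 2 * ((v : ℝ) ^ 20)⁻¹ :=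
      mul_le_mul_of_nonneg_left hpv (by positivity)
    refine h1.trans ?_
    rw [← div_eq_mul_inv, div_le_iff₀ (by positivity)]
    have h2 : (40 * (A : ℝ) * A') ^ 2 / τ ≤ v := hv₀.trans hvv
    rw [div_le_iff₀ hτ0] at h2
    have h3 : (v : ℝ) ≤ (v : ℝ) ^ 20 := le_self_pow₀ hv0 (by norm_num)
    have h4 := mul_le_mul_of_nonneg_left h3 hτ0.le
    linarith
  have hpA : pBT R J T ε (Nq p (a * (1 - ρ)) (b * (1 + κ))) (A' * u) ≤
      (θ / (10 ^ 5 * (2 * β / (α / 2)))) ^ 4 := by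
    have h1 : pBT R J T ε (Nq p (a * (1 - ρ)) (b * (1 + κ))) (A' * u) ≤
        (θ / (10 ^ 6 * (β / α))) ^ 4 := by
      have h2 : τ + τ = (θ / (10 ^ 6 * (β / α))) ^ 4 := by rw [hτ]; ring
      rw [← h2]
      linarith
    refine h1.trans ?_
    refine pow_le_pow_left₀ (by positivity) ?_ 4
    refine div_le_div_of_nonneg_left hθ0.le (by positivity) ?_
    have h3 : 2 * β / (α / 2) = 4 * (β / α) := by field_simp; ring
    rw [h3]
    linarith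
  have hN := (hNQ p (a * (1 - ρ)) (b * (1 + κ)) (α / 2) (2 * β) hp (by linarith) (by linarith)
    (st5 ha0 ha1 (by linarith)) (st6 ha0 ha2 hρ0.le) (st7 hb0 hb1 hκ.le)
    (st8 hb0 hb2 (by linarith))).1
  have huv : v ≤ A' * u := by
    have h1 : v ≤ A * v := Nat.le_mul_of_pos_left v hApos
    have h2 : u ≤ A' * u := Nat.le_mul_of_pos_left u (by omega)
    omega
  obtain ⟨w₁, hw₁⟩ := hA R J hJ T ε hT (Nq p (a * (1 - ρ)) (b * (1 + κ))) (α / 2) (2 * β) θ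
    (by linarith) (by linarith) hN hθ0 (by linarith) (A' * u) (by omega) hpA
  refine ⟨w₁, fun w hw => le_trans (pBT_mono hJ hT ε (fun x => ?_) w) (hw₁ w hw)⟩
  exact nq_E p ha0 hb0 hθ0 hρθ (by linarith) (by linarith) hκ2 x

end Pool.Agent.H79.RFT.STEP
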