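import Pool.Agent.H98.RFT.Targets3
import Pool.Agent.H2.RFZ.QUP

/-!
# rft_modules row UP3 (helper79): upper bound for the tension with probability at least 3/4
-/

set_option autoImplicit false

open MeasureTheory

namespace Pool.Agent.H79.RFT.UP3

open Pool.Agent.H98.RFC Pool.Agent.H98.RFZ Pool.Agent.H98.RFT

open Pool.Agent.H2.RFZ.Up

theorem pf_UP3 (h1 : R_TEN) (h2 : Q_PRC) (h3 : R_BZ) (h4 : Z_IND) (_h5 : D_TEN) : R_UP := by
  classical
  obtain ⟨C₄, hC4, hP⟩ := h2
  refine ⟨4 * C₄, by linarith, ?_⟩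
  intro C hC
  obtain ⟨δ₀, hδ0, hδ1, n₀, hn₀⟩ := hP (2 * C)
  refine ⟨δ₀, hδ0, hδ1, max n₀ (C + 2), ?_⟩
  intro n hn R J hJ hR T ε c u hT hc hu hδ
  have hn1 : n₀ ≤ n := le_trans (le_max_left _ _) hn
  have hn2 : C + 2 ≤ n := le_trans (le_max_right _ _) hn
  have hu0 : 0 < u := by omega
  have hmeas : ∀ y : Site, MeasurableSet
      {η : Site → ℝ | c < bz R J (fun x => ε * η x) T u C (sm u y)} := by
    intro y
    exact measurableSet_lt measurable_const (h3 R J hJ T ε hT u C (sm u y) hC).1
  have hpr := hn₀ n hn1 (Site → ℝ) gam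
    (fun y => {η : Site → ℝ | c < bz R J (fun x => ε * η x) T u C (sm u y)}) hmeas ?_
  · refine hpr.trans (ENNReal.toReal_mono (measure_ne_top _ _) (measure_mono ?_))
    rintro η ⟨𝒱, hV1, hV2, hV3, hV4⟩
    rw [Set.mem_ofPred_eq]
    have hb : ∀ y ∈ bdy 𝒱, bz R J (fun x => ε * η x) T u C (sm u y) ≤ c := by
      intro y hy
      have := hV3 y hy
      rw [Set.mem_ofPred_eq, not_lt] at this
      exact this
    have := h1 R J hJ hR (fun x => ε * η x) T hT u n C c 𝒱 hu hC hn2 hc hV1 hV2 hb
    refine this.trans ?_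
    have h6 : c * ((bdy 𝒱).card : ℝ) ≤ c * (C₄ * n) := mul_le_mul_of_nonneg_left hV4 hc
    linarith
  · intro S hS
    have hind := h4 S.card (fun i => eb (sm u (S.equivFin.symm i : Site)) (C * u))
      (fun i => {η : Site → ℝ | c < bz R J (fun x => ε * η x) T u C
        (sm u (S.equivFin.symm i : Site))}) ?_ (fun i => hmeas _) ?_
    · have hset : (⋂ y ∈ S, {η : Site → ℝ | c < bz R J (fun x => ε * η x) T u C (sm u y)}) =
          ⋂ i : Fin S.card, {η : Site → ℝ | c < bz R J (fun x => ε * η x) T u C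
            (sm u (S.equivFin.symm i : Site))} := by
        ext η
        simp only [Set.mem_iInter]
        constructor
        · intro h i
          exact h _ (S.equivFin.symm i).2
        · intro h y hy
          have := h (S.equivFin ⟨y, hy⟩)
          rw [Equiv.symm_apply_apply] at this
          exact this
      rw [hset, hind, ENNReal.toReal_prod]
      calc ∏ i : Fin S.card, (gam {η : Site → ℝ | c < bz R J (fun x => ε * η x) T u C
            (sm u (S.equivFin.symm i : Site))}).toReal
          ≤ ∏ _i : Fin S.card, δ₀ := by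
            refine Finset.prod_le_prod (fun i _ => ENNReal.toReal_nonneg) (fun i _ => ?_)
            rw [(h3 R J hJ T ε hT u C (sm u (S.equivFin.symm i : Site)) hC).2.2.2.1 c]
            exact hδ
        _ = δ₀ ^ S.card := by rw [Finset.prod_const, Finset.card_univ, Fintype.card_fin]
    · intro i j hij
      refine disj u C hu0 _ _ (hS _ (S.equivFin.symm i).2 _ (S.equivFin.symm j).2 ?_)
      intro h
      exact hij (S.equivFin.symm.injective (Subtype.ext h))
    · intro i η η' hη hmem
      rw [Set.mem_ofPred_eq] at hmem ⊢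
      rw [← (h3 R J hJ T ε hT u C (sm u (S.equivFin.symm i : Site)) hC).2.2.1 η η' hη]
      exact hmem

end Pool.Agent.H79.RFT.UP3
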